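import Pool.Agent.Q114.ShapeWilf.Ferrers

set_option autoImplicit false

/-!
# `{45123, 45213}` and `{12345, 12354}` are Wilf-equivalent

`Contains w p`: the permutation `w` contains the pattern given by the word `p`.
-/

namespace Pool.Agent.Results.MP_b2be16_co.WilfEquivalent

open Pool.Agent.Q114.ShapeWilf

/-- `w` contains the pattern with one-line notation `p`. -/
def Contains {n k : ℕ} (w : Equiv.Perm (Fin n)) (p : Fin k → ℕ) : Prop :=
  ∃ a : Fin k → Fin n, StrictMono a ∧ ∀ i j, w (a i) < w (a j) ↔ p i < p j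

variable {n : ℕ}

/-- Five increasing positions with a property. -/
def Five (T : Fin n → Fin n → Fin n → Fin n → Fin n → Prop) : Prop :=
  ∃ a b c d e : Fin n, a < b ∧ b < c ∧ c < d ∧ d < e ∧ T a b c d e

theorem strictMono5 {a b c d e : Fin n} (h1 : a < b) (h2 : b < c) (h3 : c < d) (h4 : d < e) :
    StrictMono (![a, b, c, d, e] : Fin 5 → Fin n) := by
  rw [Fin.strictMono_iff_lt_succ]
  intro i
  fin_cases i
  · exact h1
  · exact h2
  · exact h3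
  · exact h4

theorem contains_45123 (w : Equiv.Perm (Fin n)) : Contains w ![4, 5, 1, 2, 3] ↔
    Five (fun a b c d e => w c < w d ∧ w d < w e ∧ w e < w a ∧ w a < w b) := by
  constructor
  · rintro ⟨a, ha, h⟩
    exact ⟨a 0, a 1, a 2, a 3, a 4, ha (by decide), ha (by decide), ha (by decide),
      ha (by decide), (h 2 3).2 (by decide), (h 3 4).2 (by decide), (h 4 0).2 (by decide),
      (h 0 1).2 (by decide)⟩
  · rintro ⟨a, b, c, d, e, h1, h2, h3, h4, g1, g2, g3, g4⟩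
    refine ⟨![a, b, c, d, e], strictMono5 h1 h2 h3 h4, ?_⟩
    intro i j
    fin_cases i <;> fin_cases j <;> simp <;> order

theorem contains_45213 (w : Equiv.Perm (Fin n)) : Contains w ![4, 5, 2, 1, 3] ↔
    Five (fun a b c d e => w d < w c ∧ w c < w e ∧ w e < w a ∧ w a < w b) := by
  constructor
  · rintro ⟨a, ha, h⟩
    exact ⟨a 0, a 1, a 2, a 3, a 4, ha (by decide), ha (by decide), ha (by decide),
      ha (by decide), (h 3 2).2 (by decide), (h 2 4).2 (by decide), (h 4 0).2 (by decide),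
      (h 0 1).2 (by decide)⟩
  · rintro ⟨a, b, c, d, e, h1, h2, h3, h4, g1, g2, g3, g4⟩
    refine ⟨![a, b, c, d, e], strictMono5 h1 h2 h3 h4, ?_⟩
    intro i j
    fin_cases i <;> fin_cases j <;> simp <;> order

theorem contains_12345 (w : Equiv.Perm (Fin n)) : Contains w ![1, 2, 3, 4, 5] ↔
    Five (fun a b c d e => w a < w b ∧ w b < w c ∧ w c < w d ∧ w d < w e) := by
  constructor
  · rintro ⟨a, ha, h⟩
    exact ⟨a 0, a 1, a 2, a 3, a 4, ha (by decide), ha (by decide), ha (by decide),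
      ha (by decide), (h 0 1).2 (by decide), (h 1 2).2 (by decide), (h 2 3).2 (by decide),
      (h 3 4).2 (by decide)⟩
  · rintro ⟨a, b, c, d, e, h1, h2, h3, h4, g1, g2, g3, g4⟩
    refine ⟨![a, b, c, d, e], strictMono5 h1 h2 h3 h4, ?_⟩
    intro i j
    fin_cases i <;> fin_cases j <;> simp <;> order

theorem contains_12354 (w : Equiv.Perm (Fin n)) : Contains w ![1, 2, 3, 5, 4] ↔
    Five (fun a b c d e => w a < w b ∧ w b < w c ∧ w c < w e ∧ w e < w d) := by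
  constructor
  · rintro ⟨a, ha, h⟩
    exact ⟨a 0, a 1, a 2, a 3, a 4, ha (by decide), ha (by decide), ha (by decide),
      ha (by decide), (h 0 1).2 (by decide), (h 1 2).2 (by decide), (h 2 4).2 (by decide),
      (h 4 3).2 (by decide)⟩
  · rintro ⟨a, b, c, d, e, h1, h2, h3, h4, g1, g2, g3, g4⟩
    refine ⟨![a, b, c, d, e], strictMono5 h1 h2 h3 h4, ?_⟩
    intro i j
    fin_cases i <;> fin_cases j <;> simp <;> order

theorem first_class (w : Equiv.Perm (Fin n)) :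
    (¬ Contains w ![4, 5, 1, 2, 3] ∧ ¬ Contains w ![4, 5, 2, 1, 3]) ↔
    ¬ Five (fun a b c d e => w c < w e ∧ w d < w e ∧ w e < w a ∧ w a < w b) := by
  rw [← not_or, not_iff_not, contains_45123, contains_45213]
  constructor
  · rintro (⟨a, b, c, d, e, h1, h2, h3, h4, g1, g2, g3, g4⟩ |
      ⟨a, b, c, d, e, h1, h2, h3, h4, g1, g2, g3, g4⟩)
    · exact ⟨a, b, c, d, e, h1, h2, h3, h4, g1.trans g2, g2, g3, g4⟩
    · exact ⟨a, b, c, d, e, h1, h2, h3, h4, g2, g1.trans g2, g3, g4⟩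
  · rintro ⟨a, b, c, d, e, h1, h2, h3, h4, g1, g2, g3, g4⟩
    rcases lt_trichotomy (w c) (w d) with h | h | h
    · exact Or.inl ⟨a, b, c, d, e, h1, h2, h3, h4, h, g2, g3, g4⟩
    · exact absurd (w.injective h) h3.ne
    · exact Or.inr ⟨a, b, c, d, e, h1, h2, h3, h4, h, g1, g3, g4⟩

theorem second_class (w : Equiv.Perm (Fin n)) :
    (¬ Contains w ![1, 2, 3, 4, 5] ∧ ¬ Contains w ![1, 2, 3, 5, 4]) ↔
    ¬ Five (fun a b c d e => w a < w b ∧ w b < w c ∧ w c < w d ∧ w c < w e) := by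
  rw [← not_or, not_iff_not, contains_12345, contains_12354]
  constructor
  · rintro (⟨a, b, c, d, e, h1, h2, h3, h4, g1, g2, g3, g4⟩ |
      ⟨a, b, c, d, e, h1, h2, h3, h4, g1, g2, g3, g4⟩)
    · exact ⟨a, b, c, d, e, h1, h2, h3, h4, g1, g2, g3, g3.trans g4⟩
    · exact ⟨a, b, c, d, e, h1, h2, h3, h4, g1, g2, g3.trans g4, g3⟩
  · rintro ⟨a, b, c, d, e, h1, h2, h3, h4, g1, g2, g3, g4⟩
    rcases lt_trichotomy (w d) (w e) with h | h | h
    · exact Or.inl ⟨a, b, c, d, e, h1, h2, h3, h4, g1, g2, g3, h⟩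
    · exact absurd (w.injective h) h4.ne
    · exact Or.inr ⟨a, b, c, d, e, h1, h2, h3, h4, g1, g2, g4, h⟩

/-- Configurations `321` and `231`. -/
def G1 (s : Finset (Fin n)) (w : Equiv.Perm (Fin n)) : Prop :=
  ∃ c ∈ s, ∃ d ∈ s, ∃ e ∈ s, c < d ∧ d < e ∧ w e < w c ∧ w e < w d

/-- Configurations `12`. -/
def G2 (s : Finset (Fin n)) (w : Equiv.Perm (Fin n)) : Prop :=
  ∃ c ∈ s, ∃ d ∈ s, c < d ∧ w c < w d

theorem G1_local (s : Finset (Fin n)) (w w' : Equiv.Perm (Fin n)) (h : ∀ x ∈ s, w x = w' x)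
    (hg : G1 s w) : G1 s w' := by
  obtain ⟨c, hc, d, hd, e, he, h1, h2, h3, h4⟩ := hg
  rw [h c hc, h e he] at h3
  rw [h d hd, h e he] at h4
  exact ⟨c, hc, d, hd, e, he, h1, h2, h3, h4⟩

theorem G2_local (s : Finset (Fin n)) (w w' : Equiv.Perm (Fin n)) (h : ∀ x ∈ s, w x = w' x)
    (hg : G2 s w) : G2 s w' := by
  obtain ⟨c, hc, d, hd, h1, h2⟩ := hg
  rw [h c hc, h d hd] at h2
  exact ⟨c, hc, d, hd, h1, h2⟩

theorem mem_Lr_G1 (w : Equiv.Perm (Fin n)) (x y : Fin n) : (x, y) ∈ Lr G1 w ↔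
    ∃ c d e, x < c ∧ c < d ∧ d < e ∧ y < w e ∧ w e < w c ∧ w e < w d := by
  constructor
  · rintro ⟨s, -, ⟨c, hc, d, hd, e, he, h1, h2, h3, h4⟩, h⟩
    exact ⟨c, d, e, (h c hc).1, h1, h2, (h e he).2, h3, h4⟩
  · rintro ⟨c, d, e, h0, h1, h2, h5, h3, h4⟩
    refine ⟨{c, d, e}, ⟨c, by simp⟩, ⟨c, by simp, d, by simp, e, by simp, h1, h2, h3, h4⟩, ?_⟩
    intro z hz
    simp only [Finset.mem_insert, Finset.mem_singleton] at hz
    rcases hz with rfl | rfl | rfl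
    · exact ⟨h0, h5.trans h3⟩
    · exact ⟨h0.trans h1, h5.trans h4⟩
    · exact ⟨(h0.trans h1).trans h2, h5⟩

theorem mem_Lr_G2 (w : Equiv.Perm (Fin n)) (x y : Fin n) : (x, y) ∈ Lr G2 w ↔
    ∃ c d, x < c ∧ c < d ∧ y < w c ∧ w c < w d := by
  constructor
  · rintro ⟨s, -, ⟨c, hc, d, hd, h1, h2⟩, h⟩
    exact ⟨c, d, (h c hc).1, h1, (h c hc).2, h2⟩
  · rintro ⟨c, d, h0, h1, h3, h2⟩
    refine ⟨{c, d}, ⟨c, by simp⟩, ⟨c, by simp, d, by simp, h1, h2⟩, ?_⟩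
    intro z hz
    simp only [Finset.mem_insert, Finset.mem_singleton] at hz
    rcases hz with rfl | rfl
    · exact ⟨h0, h3⟩
    · exact ⟨h0.trans h1, h3.trans h2⟩

theorem cnd_zero (b : Bool) (L : Set (Fin n × Fin n)) (w : Equiv.Perm (Fin n)) (x : Fin n) :
    cnd b 0 L w x ↔ ∀ x', dir b x x' → w x' < w x → (x', w x) ∉ L := by
  classical
  rw [cnd, Nat.le_zero, Finset.card_eq_zero, Finset.filter_eq_empty_iff]
  constructor
  · intro h x' h1 h2 h3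
    exact h (Finset.mem_univ x') ⟨h1, h2, h3⟩
  · rintro h x' - ⟨h1, h2, h3⟩
    exact h x' h1 h2 h3

theorem cnd_one (b : Bool) (L : Set (Fin n × Fin n)) (w : Equiv.Perm (Fin n)) (x : Fin n) :
    cnd b 1 L w x ↔ ∀ x' x'', x' < x'' → dir b x x' → dir b x x'' → w x' < w x → w x'' < w x →
      (x', w x) ∈ L → (x'', w x) ∉ L := by
  classical
  rw [cnd, Finset.card_le_one]
  constructor
  · intro h x' x'' h0 h1 h2 h3 h4 h5 h6
    have := h x' (Finset.mem_filter.2 ⟨Finset.mem_univ _, h1, h3, h5⟩) x''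
      (Finset.mem_filter.2 ⟨Finset.mem_univ _, h2, h4, h6⟩)
    exact h0.ne this
  · intro h x' h1 x'' h2
    rw [Finset.mem_filter] at h1 h2
    by_contra hne
    rcases lt_or_gt_of_ne hne with h3 | h3
    · exact h x' x'' h3 h1.2.1 h2.2.1 h1.2.2.1 h2.2.2.1 h1.2.2.2 h2.2.2.2
    · exact h x'' x' h3 h2.2.1 h1.2.1 h2.2.2.1 h1.2.2.1 h2.2.2.2 h1.2.2.2

/-- `21 ⊕ {321, 231}`. -/
theorem classA (w : Equiv.Perm (Fin n)) :
    (∀ x, (x, w x) ∈ Lr G1 w → cnd false 0 (Lr G1 w) w x) ↔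
    ¬ Five (fun a b c d e => w b < w a ∧ w a < w e ∧ w e < w c ∧ w e < w d) := by
  constructor
  · rintro h ⟨a, b, c, d, e, h1, h2, h3, h4, g1, g2, g3, g4⟩
    have m1 : (b, w a) ∈ Lr G1 w := (mem_Lr_G1 w b (w a)).2 ⟨c, d, e, h2, h3, h4, g2, g3, g4⟩
    have m2 : (a, w a) ∈ Lr G1 w :=
      (mem_Lr_G1 w a (w a)).2 ⟨c, d, e, h1.trans h2, h3, h4, g2, g3, g4⟩
    exact (cnd_zero _ _ _ _).1 (h a m2) b h1 g1 m1
  · intro h x _
    rw [cnd_zero]
    intro x' h1 h2 h3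
    obtain ⟨c, d, e, h4, h5, h6, g2, g3, g4⟩ := (mem_Lr_G1 w x' (w x)).1 h3
    exact h ⟨x, x', c, d, e, h1, h4, h5, h6, h2, g2, g3, g4⟩

/-- `12 ⊕ {321, 231}`. -/
theorem classB (w : Equiv.Perm (Fin n)) :
    (∀ x, (x, w x) ∈ Lr G1 w → cnd true 0 (Lr G1 w) w x) ↔
    ¬ Five (fun a b c d e => w a < w b ∧ w b < w e ∧ w e < w c ∧ w e < w d) := by
  constructor
  · rintro h ⟨a, b, c, d, e, h1, h2, h3, h4, g1, g2, g3, g4⟩
    have m1 : (b, w b) ∈ Lr G1 w := (mem_Lr_G1 w b (w b)).2 ⟨c, d, e, h2, h3, h4, g2, g3, g4⟩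
    have m2 : (a, w b) ∈ Lr G1 w :=
      (mem_Lr_G1 w a (w b)).2 ⟨c, d, e, h1.trans h2, h3, h4, g2, g3, g4⟩
    exact (cnd_zero _ _ _ _).1 (h b m1) a h1 g1 m2
  · intro h x hx
    rw [cnd_zero]
    intro x' h1 h2 _
    obtain ⟨c, d, e, h4, h5, h6, g2, g3, g4⟩ := (mem_Lr_G1 w x (w x)).1 hx
    exact h ⟨x', x, c, d, e, h1, h4, h5, h6, h2, g2, g3, g4⟩

/-- `{321, 312} ⊕ 12`. -/
theorem classC (w : Equiv.Perm (Fin n)) :
    (∀ x, (x, w x) ∈ Lr G2 w → cnd false 1 (Lr G2 w) w x) ↔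
    ¬ Five (fun a b c d e => w b < w a ∧ w c < w a ∧ w a < w d ∧ w d < w e) := by
  constructor
  · rintro h ⟨a, b, c, d, e, h1, h2, h3, h4, g1, g2, g3, g4⟩
    have m1 : (b, w a) ∈ Lr G2 w := (mem_Lr_G2 w b (w a)).2 ⟨d, e, h2.trans h3, h4, g3, g4⟩
    have m2 : (c, w a) ∈ Lr G2 w := (mem_Lr_G2 w c (w a)).2 ⟨d, e, h3, h4, g3, g4⟩
    have m3 : (a, w a) ∈ Lr G2 w :=
      (mem_Lr_G2 w a (w a)).2 ⟨d, e, (h1.trans h2).trans h3, h4, g3, g4⟩
    exact (cnd_one _ _ _ _).1 (h a m3) b c h2 h1 (h1.trans h2) g1 g2 m1 m2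
  · intro h x _
    rw [cnd_one]
    intro x' x'' h0 h1 _ g1 g2 _ h3
    obtain ⟨d, e, h4, h5, g3, g4⟩ := (mem_Lr_G2 w x'' (w x)).1 h3
    exact h ⟨x, x', x'', d, e, h1, h0, h4, h5, g1, g2, g3, g4⟩

/-- `{123, 213} ⊕ 12`. -/
theorem classD (w : Equiv.Perm (Fin n)) :
    (∀ x, (x, w x) ∈ Lr G2 w → cnd true 1 (Lr G2 w) w x) ↔
    ¬ Five (fun a b c d e => w a < w c ∧ w b < w c ∧ w c < w d ∧ w d < w e) := by
  constructor
  · rintro h ⟨a, b, c, d, e, h1, h2, h3, h4, g1, g2, g3, g4⟩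
    have m1 : (c, w c) ∈ Lr G2 w := (mem_Lr_G2 w c (w c)).2 ⟨d, e, h3, h4, g3, g4⟩
    have m2 : (b, w c) ∈ Lr G2 w := (mem_Lr_G2 w b (w c)).2 ⟨d, e, h2.trans h3, h4, g3, g4⟩
    have m3 : (a, w c) ∈ Lr G2 w :=
      (mem_Lr_G2 w a (w c)).2 ⟨d, e, (h1.trans h2).trans h3, h4, g3, g4⟩
    exact (cnd_one _ _ _ _).1 (h c m1) a b h1 (h1.trans h2) h2 g1 g2 m3 m2
  · intro h x hx
    rw [cnd_one]
    intro x' x'' h0 _ h2 g1 g2 _ _
    obtain ⟨d, e, h4, h5, g3, g4⟩ := (mem_Lr_G2 w x (w x)).1 hx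
    exact h ⟨x', x'', x, d, e, h0, h2, h4, h5, g1, g2, g3, g4⟩

/-- Complement. -/
def comp : Equiv.Perm (Fin n) ≃ Equiv.Perm (Fin n) where
  toFun w := w.trans Fin.revPerm
  invFun w := w.trans Fin.revPerm
  left_inv w := by ext x; simp
  right_inv w := by ext x; simp

/-- Reverse-complement. -/
def rc : Equiv.Perm (Fin n) ≃ Equiv.Perm (Fin n) where
  toFun w := Fin.revPerm.trans (w.trans Fin.revPerm)
  invFun w := Fin.revPerm.trans (w.trans Fin.revPerm)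
  left_inv w := by ext x; simp
  right_inv w := by ext x; simp

theorem comp_iff (w : Equiv.Perm (Fin n)) :
    Five (fun a b c d e => w c < w e ∧ w d < w e ∧ w e < w a ∧ w a < w b) ↔
    Five (fun a b c d e => comp w b < comp w a ∧ comp w a < comp w e ∧ comp w e < comp w c ∧
      comp w e < comp w d) := by
  have e : ∀ x, comp w x = Fin.rev (w x) := fun _ => rfl
  simp only [Five, e, Fin.rev_lt_rev]
  constructor
  · rintro ⟨a, b, c, d, e, h1, h2, h3, h4, g1, g2, g3, g4⟩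
    exact ⟨a, b, c, d, e, h1, h2, h3, h4, g4, g3, g1, g2⟩
  · rintro ⟨a, b, c, d, e, h1, h2, h3, h4, g1, g2, g3, g4⟩
    exact ⟨a, b, c, d, e, h1, h2, h3, h4, g3, g4, g2, g1⟩

theorem rc_iff1 (w : Equiv.Perm (Fin n)) :
    Five (fun a b c d e => w a < w b ∧ w b < w e ∧ w e < w c ∧ w e < w d) ↔
    Five (fun a b c d e => rc w b < rc w a ∧ rc w c < rc w a ∧ rc w a < rc w d ∧
      rc w d < rc w e) := by
  have e : ∀ x, rc w x = Fin.rev (w (Fin.rev x)) := fun _ => rfl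
  simp only [Five, e, Fin.rev_lt_rev]
  constructor
  · rintro ⟨a, b, c, d, e, h1, h2, h3, h4, g1, g2, g3, g4⟩
    refine ⟨e.rev, d.rev, c.rev, b.rev, a.rev, Fin.rev_lt_rev.2 h4, Fin.rev_lt_rev.2 h3,
      Fin.rev_lt_rev.2 h2, Fin.rev_lt_rev.2 h1, ?_⟩
    simp only [Fin.rev_rev]
    exact ⟨g4, g3, g2, g1⟩
  · rintro ⟨a, b, c, d, e, h1, h2, h3, h4, g1, g2, g3, g4⟩
    exact ⟨e.rev, d.rev, c.rev, b.rev, a.rev, Fin.rev_lt_rev.2 h4, Fin.rev_lt_rev.2 h3,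
      Fin.rev_lt_rev.2 h2, Fin.rev_lt_rev.2 h1, g4, g3, g2, g1⟩

theorem rc_iff2 (w : Equiv.Perm (Fin n)) :
    Five (fun a b c d e => w a < w c ∧ w b < w c ∧ w c < w d ∧ w d < w e) ↔
    Five (fun a b c d e => rc w a < rc w b ∧ rc w b < rc w c ∧ rc w c < rc w d ∧
      rc w c < rc w e) := by
  have e : ∀ x, rc w x = Fin.rev (w (Fin.rev x)) := fun _ => rfl
  simp only [Five, e, Fin.rev_lt_rev]
  constructor
  · rintro ⟨a, b, c, d, e, h1, h2, h3, h4, g1, g2, g3, g4⟩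
    refine ⟨e.rev, d.rev, c.rev, b.rev, a.rev, Fin.rev_lt_rev.2 h4, Fin.rev_lt_rev.2 h3,
      Fin.rev_lt_rev.2 h2, Fin.rev_lt_rev.2 h1, ?_⟩
    simp only [Fin.rev_rev]
    exact ⟨g4, g3, g2, g1⟩
  · rintro ⟨a, b, c, d, e, h1, h2, h3, h4, g1, g2, g3, g4⟩
    exact ⟨e.rev, d.rev, c.rev, b.rev, a.rev, Fin.rev_lt_rev.2 h4, Fin.rev_lt_rev.2 h3,
      Fin.rev_lt_rev.2 h2, Fin.rev_lt_rev.2 h1, g4, g3, g2, g1⟩

/-- For every `n`, as many permutations of `n` letters avoid `45123` and `45213` as avoid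
`12345` and `12354`. -/
theorem result : ∀ n : ℕ,
    Nat.card {w : Equiv.Perm (Fin n) //
      ¬ Contains w ![4, 5, 1, 2, 3] ∧ ¬ Contains w ![4, 5, 2, 1, 3]} =
    Nat.card {w : Equiv.Perm (Fin n) //
      ¬ Contains w ![1, 2, 3, 4, 5] ∧ ¬ Contains w ![1, 2, 3, 5, 4]} := by
  classical
  intro n
  have step1 : Nat.card {w : Equiv.Perm (Fin n) //
      ¬ Contains w ![4, 5, 1, 2, 3] ∧ ¬ Contains w ![4, 5, 2, 1, 3]} =
      Nat.card {w : Equiv.Perm (Fin n) // ∀ x, (x, w x) ∈ Lr G1 w → cnd false 0 (Lr G1 w) w x} :=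
    Nat.card_congr (Equiv.subtypeEquiv comp (fun w => by
      rw [first_class, classA, comp_iff]))
  have step2 : Nat.card {w : Equiv.Perm (Fin n) //
      ∀ x, (x, w x) ∈ Lr G1 w → cnd true 0 (Lr G1 w) w x} =
      Nat.card {w : Equiv.Perm (Fin n) // ∀ x, (x, w x) ∈ Lr G2 w → cnd false 1 (Lr G2 w) w x} :=
    Nat.card_congr (Equiv.subtypeEquiv rc (fun w => by
      rw [classB, classC, rc_iff1]))
  have step3 : Nat.card {w : Equiv.Perm (Fin n) //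
      ∀ x, (x, w x) ∈ Lr G2 w → cnd true 1 (Lr G2 w) w x} =
      Nat.card {w : Equiv.Perm (Fin n) //
        ¬ Contains w ![1, 2, 3, 4, 5] ∧ ¬ Contains w ![1, 2, 3, 5, 4]} :=
    Nat.card_congr (Equiv.subtypeEquiv rc (fun w => by
      rw [second_class, classD, rc_iff2]))
  have t1 : Nat.card {w : Equiv.Perm (Fin n) //
      ∀ x, (x, w x) ∈ Lr G1 w → cnd true 0 (Lr G1 w) w x} =
      Nat.card {w : Equiv.Perm (Fin n) //
      ∀ x, (x, w x) ∈ Lr G1 w → cnd false 0 (Lr G1 w) w x} := by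
    rw [Nat.card_eq_fintype_card, Nat.card_eq_fintype_card, Fintype.card_subtype,
      Fintype.card_subtype]
    exact transfer G1 G1_local 0
  have t2 : Nat.card {w : Equiv.Perm (Fin n) //
      ∀ x, (x, w x) ∈ Lr G2 w → cnd true 1 (Lr G2 w) w x} =
      Nat.card {w : Equiv.Perm (Fin n) //
      ∀ x, (x, w x) ∈ Lr G2 w → cnd false 1 (Lr G2 w) w x} := by
    rw [Nat.card_eq_fintype_card, Nat.card_eq_fintype_card, Fintype.card_subtype,
      Fintype.card_subtype]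
    exact transfer G2 G2_local 1
  rw [step1, ← t1, step2, ← t2, step3]

end Pool.Agent.Results.MP_b2be16_co.WilfEquivalent
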